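import Mathlib

/-!
# Two integral points near the cusp curve `y ^ 2 = x ^ 3`

If `x < x'` are positive integers with `(x' - x) ^ 4 ≤ x`, then
`x ≤ 100 (x' - x) max (|y ^ 2 - x ^ 3|, |y' ^ 2 - x' ^ 3|)` for all integers `y`, `y'`.

The integer `n = 9 (x + x') (x' - x) ^ 2 - 8 (y' - y) ^ 2` is small, as for `x = p ^ 2`, `y = p ^ 3`,
`x' = q ^ 2`, `y' = q ^ 3` it is equal to `(q - p) ^ 4 (p ^ 2 + q ^ 2 + 4 p q)`. So it is zero; then
`x + x' = 2 u ^ 2`, `y' - y = 3 u (x' - x) / 2`, and `x'` is near the square `u ^ 2`.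
-/

set_option autoImplicit false

namespace Pool.Agent.H574.Gap

/-- The case `9 (x + x') (x' - x) ^ 2 = 8 (y' - y) ^ 2`. -/
theorem zero_case {x x' y y' : ℤ} (hx : 0 < x) (hxx : x < x') (h4 : (x' - x) ^ 4 ≤ x)
    (hy' : 0 ≤ y') (hyy : 0 ≤ y' - y) (h0 : 9 * (x + x') * (x' - x) ^ 2 = 8 * (y' - y) ^ 2) :
    3 * x ≤ 4 * |y' ^ 2 - x' ^ 3| := by
  obtain ⟨d, hd⟩ : ∃ d, d = x' - x := ⟨_, rfl⟩
  obtain ⟨Y, hY⟩ : ∃ Y, Y = y' - y := ⟨_, rfl⟩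
  rw [← hd, ← hY] at h0
  rw [← hd] at h4
  rw [← hY] at hyy
  have hd0 : 0 < d := by omega
  -- `2 (x + x')` is a square
  have h1 : (4 * Y) ^ 2 = (3 * d) ^ 2 * (2 * (x + x')) := by linear_combination (-2) * h0
  have h2 : 3 * d ∣ 4 * Y := by
    rw [← Int.pow_dvd_pow_iff two_ne_zero]
    exact ⟨_, h1⟩
  obtain ⟨v, hv⟩ := h2
  have h3 : v ^ 2 = 2 * (x + x') := by
    have h5 : (3 * d) ^ 2 * v ^ 2 = (3 * d) ^ 2 * (2 * (x + x')) := by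
      rw [← h1, hv]; ring
    exact mul_left_cancel₀ (by positivity) h5
  have hv0 : 0 ≤ v := by
    by_contra hneg
    push Not at hneg
    have : 4 * Y < 0 := by rw [hv]; exact mul_neg_of_pos_of_neg (by omega) hneg
    omega
  obtain ⟨u, hu⟩ : (2 : ℤ) ∣ v := by
    have : (2 : ℤ) ∣ v ^ 2 := ⟨_, h3⟩
    exact Int.prime_two.dvd_of_dvd_pow this
  have hs : x + x' = 2 * u ^ 2 := by
    rw [hu] at h3
    linarith
  have hY2 : 2 * Y = 3 * u * d := by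
    rw [hu] at hv
    linarith
  obtain ⟨e, he⟩ : (2 : ℤ) ∣ d := ⟨u ^ 2 - x, by linarith⟩
  have hx1 : x' = u ^ 2 + e := by linarith
  have hx0 : x = u ^ 2 - e := by linarith
  have he0 : 1 ≤ e := by omega
  have hu0 : 0 ≤ u := by omega
  have hu1 : 1 ≤ u := by
    rcases hu0.eq_or_lt with h | h
    · rw [← h] at hx0; simp at hx0; omega
    · omega
  -- the size of `e`
  have h6 : 16 * e ^ 4 ≤ u ^ 2 - 1 := by
    rw [he] at h4
    nlinarith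
  have h7 : 4 * e ^ 2 < u := by
    by_contra hcon
    push Not at hcon
    nlinarith
  have he3 : e ^ 3 ≤ e ^ 4 := pow_le_pow_right₀ he0 (by norm_num)
  -- the size of `y' ^ 2 - x' ^ 3`
  have hA : 4 * x' ^ 3 - (2 * u ^ 3 + 3 * u * e) ^ 2 = 3 * u ^ 2 * e ^ 2 + 4 * e ^ 3 := by
    rw [hx1]; ring
  have hxu : x ≤ u ^ 2 := by omega
  rcases le_or_gt (2 * y') (2 * u ^ 3 + 3 * u * e) with hle | hgt
  · have h8 : (2 * y') ^ 2 ≤ (2 * u ^ 3 + 3 * u * e) ^ 2 := pow_le_pow_left₀ (by omega) hle 2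
    have h9 : 3 * u ^ 2 ≤ 4 * (x' ^ 3 - y' ^ 2) := by
      have : u ^ 2 ≤ u ^ 2 * e ^ 2 := le_mul_of_one_le_right (by positivity) (one_le_pow₀ he0)
      have : 0 ≤ e ^ 3 := by positivity
      nlinarith
    have h10 : x' ^ 3 - y' ^ 2 ≤ |y' ^ 2 - x' ^ 3| := by
      rw [abs_sub_comm]; exact le_abs_self _
    linarith
  · have h8 : (2 * u ^ 3 + 3 * u * e + 1) ^ 2 ≤ (2 * y') ^ 2 :=
      pow_le_pow_left₀ (by positivity) (by omega) 2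
    have h11 : 3 * u ^ 2 * (4 * e ^ 2) ≤ 3 * u ^ 2 * u :=
      mul_le_mul_of_nonneg_left h7.le (by positivity)
    have h12 : u ^ 2 ≤ u ^ 3 := pow_le_pow_right₀ hu1 (by norm_num)
    have h13 : 0 ≤ u * e := by positivity
    have h9 : 3 * u ^ 2 ≤ 4 * (y' ^ 2 - x' ^ 3) := by nlinarith
    have h10 : y' ^ 2 - x' ^ 3 ≤ |y' ^ 2 - x' ^ 3| := le_abs_self _
    linarith

/-- near the cusp curve -/
theorem near {p y K : ℝ} (hp : 0 < p) (hy : 0 ≤ y) (hk : |y ^ 2 - (p ^ 2) ^ 3| ≤ K) :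
    |y - p ^ 3| * p ^ 3 ≤ K := by
  have h1 : |y ^ 2 - (p ^ 2) ^ 3| = |y - p ^ 3| * (y + p ^ 3) := by
    have : y ^ 2 - (p ^ 2) ^ 3 = (y - p ^ 3) * (y + p ^ 3) := by ring
    rw [this, abs_mul, abs_of_nonneg (by positivity : 0 ≤ y + p ^ 3)]
  rw [h1] at hk
  refine le_trans ?_ hk
  exact mul_le_mul_of_nonneg_left (by linarith) (abs_nonneg _)

set_option maxHeartbeats 2000000 in
/-- **The repulsion**, for nonnegative ordinates -/
theorem main_nonneg {x x' y y' K : ℤ} (hx : 0 < x) (hxx : x < x') (h4 : (x' - x) ^ 4 ≤ x)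
    (hy : 0 ≤ y) (hy' : 0 ≤ y') (hk : |y ^ 2 - x ^ 3| ≤ K) (hk' : |y' ^ 2 - x' ^ 3| ≤ K) :
    x ≤ 100 * (x' - x) * K := by
  by_contra hcon
  push Not at hcon
  have hd1 : 1 ≤ x' - x := by omega
  have hdx : x' - x ≤ x := le_trans (le_self_pow₀ hd1 (by norm_num)) h4
  have hKx : 4 * K < 3 * x := by
    have hK0 : 0 ≤ K := le_trans (abs_nonneg _) hk
    nlinarith
  -- the real quantities
  obtain ⟨p, hp⟩ : ∃ p : ℝ, p = √(x : ℝ) := ⟨_, rfl⟩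
  obtain ⟨q, hq⟩ : ∃ q : ℝ, q = √(x' : ℝ) := ⟨_, rfl⟩
  have hxR : (0 : ℝ) < x := by exact_mod_cast hx
  have hx'R : (0 : ℝ) < x' := by exact_mod_cast hx.trans hxx
  have hp0 : 0 < p := by rw [hp]; exact Real.sqrt_pos.2 hxR
  have hq0 : 0 < q := by rw [hq]; exact Real.sqrt_pos.2 hx'R
  have hp2 : p ^ 2 = x := by rw [hp]; exact Real.sq_sqrt hxR.le
  have hq2 : q ^ 2 = x' := by rw [hq]; exact Real.sq_sqrt hx'R.le
  have hpq : p < q := by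
    rw [hp, hq]
    exact Real.sqrt_lt_sqrt hxR.le (by exact_mod_cast hxx)
  have hp1 : 1 ≤ p := by
    rw [hp]
    rw [Real.one_le_sqrt]
    exact_mod_cast hx
  obtain ⟨d, hd⟩ : ∃ d : ℝ, d = q ^ 2 - p ^ 2 := ⟨_, rfl⟩
  have hdZ : d = ((x' - x : ℤ) : ℝ) := by rw [hd, hp2, hq2]; push_cast; ring
  have hd1R : 1 ≤ d := by rw [hdZ]; exact_mod_cast hd1
  have hd4 : d ^ 4 ≤ p ^ 2 := by rw [hdZ, hp2]; exact_mod_cast h4
  have hdp : d ≤ p ^ 2 := by rw [hdZ, hp2]; exact_mod_cast hdx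
  have hyR : (0 : ℝ) ≤ y := by exact_mod_cast hy
  have hy'R : (0 : ℝ) ≤ y' := by exact_mod_cast hy'
  have hKR : 100 * d * (K : ℝ) < p ^ 2 := by rw [hdZ, hp2]; exact_mod_cast hcon
  have hkR : |(y : ℝ) ^ 2 - (p ^ 2) ^ 3| ≤ K := by rw [hp2]; exact_mod_cast hk
  have hk'R : |(y' : ℝ) ^ 2 - (q ^ 2) ^ 3| ≤ K := by rw [hq2]; exact_mod_cast hk'
  have n1 := near hp0 hyR hkR
  have n2 := near hq0 hy'R hk'R
  have m1 : |(y : ℝ) - p ^ 3| * (100 * d * p) ≤ 1 := by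
    have h5 : |(y : ℝ) - p ^ 3| * (100 * d * p) * p ^ 2 ≤ 1 * p ^ 2 := by
      calc |(y : ℝ) - p ^ 3| * (100 * d * p) * p ^ 2 = 100 * d * (|(y : ℝ) - p ^ 3| * p ^ 3) := by ring
        _ ≤ 100 * d * K := mul_le_mul_of_nonneg_left n1 (by positivity)
        _ ≤ 1 * p ^ 2 := by linarith
    exact le_of_mul_le_mul_right h5 (by positivity)
  have m2 : |(y' : ℝ) - q ^ 3| * (100 * d * p) ≤ 1 := by
    have h5 : |(y' : ℝ) - q ^ 3| * (100 * d * p) * q ^ 2 ≤ 1 * q ^ 2 := by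
      calc |(y' : ℝ) - q ^ 3| * (100 * d * p) * q ^ 2
          ≤ |(y' : ℝ) - q ^ 3| * (100 * d * q) * q ^ 2 := by
            have := abs_nonneg ((y' : ℝ) - q ^ 3)
            gcongr
        _ = 100 * d * (|(y' : ℝ) - q ^ 3| * q ^ 3) := by ring
        _ ≤ 100 * d * K := mul_le_mul_of_nonneg_left n2 (by positivity)
        _ ≤ p ^ 2 := by linarith
        _ ≤ q ^ 2 := by gcongr
        _ = 1 * q ^ 2 := by ring
    exact le_of_mul_le_mul_right h5 (by positivity)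
  obtain ⟨T, hT⟩ : ∃ T : ℝ, T = q ^ 3 - p ^ 3 := ⟨_, rfl⟩
  obtain ⟨e, he⟩ : ∃ e : ℝ, e = (y' - y : ℝ) - T := ⟨_, rfl⟩
  have hT0 : 0 ≤ T := by
    rw [hT]
    have : p ^ 3 ≤ q ^ 3 := pow_le_pow_left₀ hp0.le hpq.le 3
    linarith
  have he1 : |e| ≤ |(y' : ℝ) - q ^ 3| + |(y : ℝ) - p ^ 3| := by
    have : e = ((y' : ℝ) - q ^ 3) - ((y : ℝ) - p ^ 3) := by rw [he, hT]; ring
    rw [this]
    exact abs_sub _ _
  have he2 : |e| * (50 * d * p) ≤ 1 := by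
    have h5 : |e| * (100 * d * p) ≤ (|(y' : ℝ) - q ^ 3| + |(y : ℝ) - p ^ 3|) * (100 * d * p) :=
      mul_le_mul_of_nonneg_right he1 (by positivity)
    nlinarith
  obtain ⟨F, hF⟩ : ∃ F : ℝ, F = (q - p) ^ 4 * (p ^ 2 + q ^ 2 + 4 * (p * q)) := ⟨_, rfl⟩
  have hF0 : 0 ≤ F := by rw [hF]; positivity
  have hF1 : F ≤ 3 / 8 := by
    have h5 : F * (q + p) ^ 4 = d ^ 4 * (p ^ 2 + q ^ 2 + 4 * (p * q)) := by rw [hF, hd]; ring
    have h6 : d ^ 4 * (p ^ 2 + q ^ 2 + 4 * (p * q)) ≤ p ^ 2 * (p ^ 2 + q ^ 2 + 4 * (p * q)) :=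
      mul_le_mul_of_nonneg_right hd4 (by positivity)
    have h7 : p ^ 2 * (p ^ 2 + q ^ 2 + 4 * (p * q)) ≤ 3 / 8 * (q + p) ^ 4 := by
      obtain ⟨δ, hδ⟩ : ∃ δ, δ = q - p := ⟨_, rfl⟩
      have hδ0 : 0 ≤ δ := by linarith
      have hqδ : q = p + δ := by linarith
      rw [hqδ]
      have e1 : 3 / 8 * (p + δ + p) ^ 4 - p ^ 2 * (p ^ 2 + (p + δ) ^ 2 + 4 * (p * (p + δ))) =
          6 * p ^ 3 * δ + 8 * p ^ 2 * δ ^ 2 + 3 * p * δ ^ 3 + 3 / 8 * δ ^ 4 := by ring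
      have e2 : 0 ≤ 6 * p ^ 3 * δ + 8 * p ^ 2 * δ ^ 2 + 3 * p * δ ^ 3 + 3 / 8 * δ ^ 4 := by positivity
      linarith
    have h8 : F * (q + p) ^ 4 ≤ 3 / 8 * (q + p) ^ 4 := by rw [h5]; exact h6.trans h7
    exact le_of_mul_le_mul_right h8 (by positivity)
  have hid : 9 * (p ^ 2 + q ^ 2) * d ^ 2 - 8 * T ^ 2 = F := by rw [hd, hT, hF]; ring
  have hT2 : T ≤ 1.84 * (d * p) := by
    have h5 : 8 * T ^ 2 ≤ 9 * (p ^ 2 + q ^ 2) * d ^ 2 := by linarith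
    have h6 : p ^ 2 + q ^ 2 ≤ 3 * p ^ 2 := by linarith
    have h7 : T ^ 2 ≤ (1.84 * (d * p)) ^ 2 := by
      have h8 : 9 * (p ^ 2 + q ^ 2) * d ^ 2 ≤ 9 * (3 * p ^ 2) * d ^ 2 := by gcongr
      have h9 : 0 ≤ (d * p) ^ 2 := by positivity
      nlinarith
    exact le_of_sq_le_sq h7 (by positivity)
  -- the integer
  obtain ⟨n, hn⟩ : ∃ n : ℤ, n = 9 * (x + x') * (x' - x) ^ 2 - 8 * (y' - y) ^ 2 := ⟨_, rfl⟩
  have hnR : (n : ℝ) = F - 8 * e * (2 * T + e) := by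
    have h5 : (n : ℝ) = 9 * (p ^ 2 + q ^ 2) * d ^ 2 - 8 * ((y' : ℝ) - y) ^ 2 := by
      rw [hn, hp2, hq2, hdZ]; push_cast; ring
    have h6 : (y' : ℝ) - y = T + e := by rw [he]; ring
    rw [h5, h6, ← hid]; ring
  have hdp1 : 1 ≤ d * p := by nlinarith
  have he3 : |e| ≤ 1 / 50 := by nlinarith [abs_nonneg e]
  have he4 : |8 * e * (2 * T + e)| ≤ 0.6 := by
    have h5 : |8 * e * (2 * T + e)| ≤ 8 * |e| * (2 * T + |e|) := by
      rw [abs_mul, abs_mul, abs_of_pos (by norm_num : (0 : ℝ) < 8)]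
      apply mul_le_mul_of_nonneg_left _ (by positivity)
      calc |2 * T + e| ≤ |2 * T| + |e| := abs_add_le _ _
        _ = 2 * T + |e| := by rw [abs_of_nonneg (by positivity)]
    have h6 : |e| * T ≤ 1.84 / 50 := by
      have h7 : |e| * T ≤ |e| * (1.84 * (d * p)) := mul_le_mul_of_nonneg_left hT2 (abs_nonneg _)
      nlinarith
    have h8 : |e| * |e| ≤ 1 / 50 * (1 / 50) := mul_le_mul he3 he3 (abs_nonneg _) (by norm_num)
    nlinarith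
  have hn0 : n = 0 := by
    have h5 := abs_le.1 he4
    have h6 : (n : ℝ) < 1 := by rw [hnR]; linarith
    have h7 : (-1 : ℝ) < n := by rw [hnR]; linarith
    have h8 : n < 1 := by exact_mod_cast h6
    have h9 : -1 < n := by exact_mod_cast h7
    omega
  -- `y ≤ y'`
  have hyy : 0 ≤ y' - y := by
    have h5 : (1.5 : ℝ) * p ≤ T := by
      have h6 : T * (q + p) = d * (q ^ 2 + q * p + p ^ 2) := by rw [hT, hd]; ring
      have h7 : 1.5 * p * (q + p) ≤ d * (q ^ 2 + q * p + p ^ 2) := by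
        have h8 : 1 * (q ^ 2 + q * p + p ^ 2) ≤ d * (q ^ 2 + q * p + p ^ 2) :=
          mul_le_mul_of_nonneg_right hd1R (by positivity)
        nlinarith
      rw [← h6] at h7
      exact le_of_mul_le_mul_right h7 (by positivity)
    have h6 : (0 : ℝ) ≤ (y' : ℝ) - y := by
      have h7 : (y' : ℝ) - y = T + e := by rw [he]; ring
      rw [h7]
      have := (abs_le.1 he3).1
      linarith
    exact_mod_cast h6
  have hfin := zero_case hx hxx h4 hy' hyy (by rw [hn0] at hn; linarith)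
  linarith

/-- **The repulsion.** -/
theorem main {x x' y y' K : ℤ} (hx : 0 < x) (hxx : x < x') (h4 : (x' - x) ^ 4 ≤ x)
    (hk : |y ^ 2 - x ^ 3| ≤ K) (hk' : |y' ^ 2 - x' ^ 3| ≤ K) :
    x ≤ 100 * (x' - x) * K :=
  main_nonneg hx hxx h4 (abs_nonneg y) (abs_nonneg y') (by rwa [sq_abs]) (by rwa [sq_abs])

end Pool.Agent.H574.Gap
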